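import Pool.Agent.H776.Body
import Pool.Agent.H776.IsoT
import Pool.Agent.H776.Quad

/-!
# The KLS conjecture for convex bodies is equivalent to its case of centred ellipsoids intersected with
the positive orthant

Q1 (the frozen statement) holds for all convex bodies if and only if it holds for the bodies
`{x ∈ ℝᴺ : x_i ≥ 0 for all i, xᵀ Q x ≤ 1}`, `Q` a positive definite matrix, `N` arbitrary. In other words:
after a linear change of variables, for the intersections of Euclidean balls with simplicial cones whose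
apex is the centre of the ball. Ellipsoids and orthants are among the best understood examples for
the conjecture (it is easy for both), and the ellipsoids are centred at the apex of the orthant.

Method (all steps are limits of images under contractions `T`, where the covariance in the directions
which are lost under `T` tends to zero, so that the Poincare inequality with `C_P ≤ D ‖Cov‖` passes to the
limit, module `H776.Lift`).
1. Centred Gaussian measures conditioned to the positive orthant are limits of marginals of uniform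
  measures on parts of ellipsoids in orthants (Poincare and Borel).
2. Gaussian measures with arbitrary centres conditioned to orthants are limits of images of centred ones:
  the number `1` in `y - 1 b` is replaced by a sum of `m` additional independent half-normal coordinates
  of size `1 / m` (law of large numbers).
3. Exponential densities on polyhedra are limits of images of Gaussian measures conditioned to orthants:
  the slacks, multiplied by a small number, are additional coordinates.
4. Log-concave densities are limits of `exp (-max_j (⟪a_j, x⟫ + b_j))`, marginals of exponential densities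
  on polyhedra.
The halfspace form for the bodies in the hypothesis is obtained from the variances by a theorem of
helper193 (`Q193/EM/Hlf.lean` of the library), the converse is `Q289/LD/Evar.lean`.
-/

set_option autoImplicit false

namespace Pool.Agent.Results.MP_8d00da_gt.EllipsoidsInOrthants

open MeasureTheory Set
open scoped ENNReal InnerProductSpace

/-- Euclidean space of dimension `n` -/
abbrev Euc (n : ℕ) : Type := EuclideanSpace ℝ (Fin n)

/-- convex body: compact convex set with nonempty interior -/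
structure IsBody {n : ℕ} (K : Set (Euc n)) : Prop where
  convex : Convex ℝ K
  compact : IsCompact K
  int : (interior K).Nonempty

/-- **Q1 for the body `K` with the constant `c`** (as in the frozen statement): for the uniform
measure `μ` on `K` and `t ∈ [0, ∞]`, if `t min(μ H, 1 - μ H) ≤ μ⁺(H)` for all halfspaces `H` then
`c t min(μ A, 1 - μ A) ≤ μ⁺(A)` for all measurable sets `A`. -/
def KLS {n : ℕ} (c : ℝ) (K : Set (Euc n)) : Prop :=
  ∀ μ : Measure (Euc n), μ = (volume K)⁻¹ • volume.restrict K → ∀ t : ℝ≥0∞,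
    (∀ (u : Euc n) (b : ℝ), u ≠ 0 →
      t * min (μ {x : Euc n | inner ℝ u x ≤ b}) (1 - μ {x : Euc n | inner ℝ u x ≤ b}) ≤
        Filter.liminf (fun ε : ℝ => (μ (Metric.thickening ε {x : Euc n | inner ℝ u x ≤ b})
          - μ {x : Euc n | inner ℝ u x ≤ b}) / ENNReal.ofReal ε) (nhdsWithin 0 (Set.Ioi 0))) →
    ∀ A : Set (Euc n), MeasurableSet A →
      ENNReal.ofReal c * t * min (μ A) (1 - μ A) ≤
        Filter.liminf (fun ε : ℝ => (μ (Metric.thickening ε A) - μ A) / ENNReal.ofReal ε)
          (nhdsWithin 0 (Set.Ioi 0))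

/-- the part of the centred ellipsoid `xᵀ Q x ≤ 1` in the positive orthant -/
def EllipsoidPart {n : ℕ} (Q : Matrix (Fin n) (Fin n) ℝ) : Set (Euc n) :=
  {x | (∀ i, 0 ≤ x i) ∧ ∑ i, ∑ j, Q i j * x i * x j ≤ 1}

theorem kls_iff {n : ℕ} {c : ℝ} {K : Set (Euc n)} : KLS c K ↔ Pool.Agent.H776.HF K c :=
  ⟨fun h t ht A hA => h _ rfl t ht A hA, fun h μ hμ t ht A hA => by
    subst hμ
    exact h t ht A hA⟩

theorem eo_eq {n : ℕ} {F : Type} [Fintype F] {A : Euc n →ₗ[ℝ] EuclideanSpace ℝ F}
    {Q : Matrix (Fin n) (Fin n) ℝ} (h : ∀ x : Euc n, ‖A x‖ ^ 2 = ∑ i, ∑ j, Q i j * x i * x j) :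
    Pool.Agent.H776.EO A = EllipsoidPart Q := by
  ext x
  unfold Pool.Agent.H776.EO EllipsoidPart
  rw [mem_ofPred_eq, mem_ofPred_eq, h]

theorem body_of_posDef {n : ℕ} {Q : Matrix (Fin n) (Fin n) ℝ} (hQ : Q.PosDef) :
    IsBody (EllipsoidPart Q) := by
  obtain ⟨A, hA, hx⟩ := Pool.Agent.H776.exists_map hQ
  rw [← eo_eq hx]
  exact ⟨Pool.Agent.H776.EO_convex A, Pool.Agent.H776.EO_compact hA,
    Pool.Agent.H776.EO_interior A⟩

/-- **parts of ellipsoids in orthants are as hard as all convex bodies** -/
theorem main : ∃ c : ℝ, 0 < c ∧ ∀ C : ℝ, 0 < C →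
    (∀ (N : ℕ) (Q : Matrix (Fin N) (Fin N) ℝ), Q.PosDef → KLS C (EllipsoidPart Q)) →
      ∀ (n : ℕ) (K : Set (Euc n)), IsBody K → KLS (c * C) K := by
  classical
  obtain ⟨c₀, hc₀, H0⟩ := Pool.Agent.H776.exists_kp_of_hf
  refine ⟨c₀ / 80, by positivity, fun C hC H n K hK => ?_⟩
  have hD : 0 < 4 / (C * c₀) ^ 2 := by positivity
  have hEO : ∀ (κ' F' : Type) [Fintype κ'] [Fintype F']
      (A : Pool.Agent.H776.Eu κ' →ₗ[ℝ] Pool.Agent.H776.Eu F'), Function.Injective A →
      Pool.Agent.H776.KP (Pool.Agent.H776.nm (Pool.Agent.H776.eo A)) (4 / (C * c₀) ^ 2) := by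
    intro κ' F' _ _ A hA
    have e := Fintype.equivFin κ'
    set σ := Pool.Agent.H776.rx e.symm with hσ
    set A' : Pool.Agent.H776.Eu (Fin (Fintype.card κ')) →ₗ[ℝ] Pool.Agent.H776.Eu F' :=
      A ∘ₗ σ.toLinearEquiv.toLinearMap with hA'
    have hA'i : Function.Injective A' := hA.comp σ.injective
    have hbody : Pool.Agent.H776.Body (Pool.Agent.H776.EO A') :=
      ⟨Pool.Agent.H776.EO_compact hA'i, Pool.Agent.H776.EO_convex A',
        Pool.Agent.H776.EO_interior A'⟩
    obtain ⟨Q, hQ, -, hQx⟩ := Pool.Agent.H776.exists_matrix A' hA'i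
    have h1 := kls_iff.1 (H _ Q hQ)
    rw [← eo_eq hQx] at h1
    have h2 := H0 _ _ hbody C hC h1
    have hpr := hbody.wt.prob
    have h3 := h2.iso hbody.wt.int_sq σ hD.le
    have e1 : (Pool.Agent.H776.EO A').indicator (fun _ => (1 : ℝ)) =
        fun y => Pool.Agent.H776.eo A (σ y) := by
      funext y
      unfold Pool.Agent.H776.eo
      have hiff : y ∈ Pool.Agent.H776.EO A' ↔ σ y ∈ Pool.Agent.H776.EO A := by
        unfold Pool.Agent.H776.EO
        rw [mem_ofPred_eq, mem_ofPred_eq]
        have : (∀ i, 0 ≤ σ y i) ↔ ∀ i, 0 ≤ y i := by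
          rw [hσ]
          simp only [Pool.Agent.H776.rx_apply, Equiv.symm_symm]
          exact ⟨fun h i => by simpa using h (e.symm i), fun h i => h _⟩
        rw [this]
        rfl
      by_cases hy : y ∈ Pool.Agent.H776.EO A'
      · rw [indicator_of_mem hy, indicator_of_mem (hiff.1 hy)]
      · rw [indicator_of_notMem hy, indicator_of_notMem fun h => hy (hiff.2 h)]
    rw [e1, Pool.Agent.H776.nm_iso] at h3
    exact h3
  have hB : Pool.Agent.H776.Body K := ⟨hK.compact, hK.convex, hK.int⟩
  have hall := Pool.Agent.H776.kp_all hD.le (fun J _ _ a b c0 C0 hc0 hlow =>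
    Pool.Agent.H776.kp_mx hD.le (fun κ' _ g hng hwg => Pool.Agent.H776.kp_ng hD.le
      (fun κ'' _ g' hcg hwg' => Pool.Agent.H776.kp_cg hD.le hEO hcg hwg') hng hwg) hc0 hlow) hB.den
  have hK' : Pool.Agent.H776.KP (Pool.Agent.H776.nm (K.indicator fun _ => (1 : ℝ)))
      (4 / (C * c₀) ^ 2) := by
    have e : (fun x => K.indicator (fun _ => (1 : ℝ)) x / volume.real K) =
        fun x => (volume.real K)⁻¹ * K.indicator (fun _ => (1 : ℝ)) x := by
      funext x
      rw [div_eq_inv_mul]
    have hr : 0 < volume.real K := ENNReal.toReal_pos hB.pos.ne' hB.fin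
    rw [e, Pool.Agent.H776.nm_const_mul (inv_ne_zero hr.ne')] at hall
    exact hall
  have h5 := Pool.Agent.H776.hf_of_kp hB hD hK'
  have e : 1 / (40 * Real.sqrt (4 / (C * c₀) ^ 2)) = c₀ / 80 * C := by
    rw [Real.sqrt_div (by norm_num), Real.sqrt_sq (by positivity),
      show (4 : ℝ) = 2 ^ 2 by norm_num, Real.sqrt_sq (by norm_num)]
    field_simp
    norm_num
  rw [e] at h5
  exact kls_iff.2 h5

/-- **The KLS conjecture for convex bodies is equivalent to its case of centred ellipsoids intersected
with the positive orthant.** There is an absolute constant `c > 0` such that: if Q1 holds with the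
constant `C` for all bodies `{x ∈ ℝᴺ : x ≥ 0, xᵀ Q x ≤ 1}`, `Q` positive definite, then it holds with the
constant `c C` for all convex bodies. So the conjecture is equivalent to the conjecture for these bodies.
(The sets are convex bodies.) -/
theorem result :
    (∃ c : ℝ, 0 < c ∧ ∀ C : ℝ, 0 < C →
      (∀ (N : ℕ) (Q : Matrix (Fin N) (Fin N) ℝ), Q.PosDef → KLS C (EllipsoidPart Q)) →
        ∀ (n : ℕ) (K : Set (Euc n)), IsBody K → KLS (c * C) K) ∧
    ((∃ C : ℝ, 0 < C ∧ ∀ (n : ℕ) (K : Set (Euc n)), IsBody K → KLS C K) ↔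
      ∃ C : ℝ, 0 < C ∧ ∀ (N : ℕ) (Q : Matrix (Fin N) (Fin N) ℝ), Q.PosDef →
        KLS C (EllipsoidPart Q)) ∧
    ∀ (N : ℕ) (Q : Matrix (Fin N) (Fin N) ℝ), Q.PosDef → IsBody (EllipsoidPart Q) := by
  refine ⟨main, ⟨fun ⟨C, hC, H⟩ => ⟨C, hC, fun N Q hQ => H N _ (body_of_posDef hQ)⟩,
    fun ⟨C, hC, H⟩ => ?_⟩, fun _ _ hQ => body_of_posDef hQ⟩
  obtain ⟨c, hc, h⟩ := main
  exact ⟨c * C, mul_pos hc hC, h C hC H⟩

end Pool.Agent.Results.MP_8d00da_gt.EllipsoidsInOrthants
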