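import Pool.Agent.H776.ND5
import Pool.Agent.H776.ND8
import Pool.Agent.H776.Body

/-!
# KLS for convex bodies defined by few quadratic inequalities and few linear functionals

The conjecture of Kannan, Lovasz and Simonovits holds, in all dimensions, for all convex bodies
`K = {x ∈ ℝⁿ : (q_1(x), …, q_k(x), ⟪a_1, x⟫, …, ⟪a_d, x⟫) ∈ D}`, where `q_1, …, q_k` are arbitrary convex
quadratic polynomials and `D ⊆ ℝᵏ × ℝᵈ` is closed, convex and lower in the first `k` coordinates, with a
constant `c k^{-5/2} (k + d)^{-1/2}` which does not depend on the dimension. Examples: intersections of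
`k` arbitrary ellipsoids (any centres, any axes); intersections of a ball or an ellipsoid with a
cylinder over an arbitrary `d`-dimensional convex body. More generally the `q_j` can be replaced by
`F_j(x) = ψ_j(P_j x) + ⟪b_j, x⟫` with arbitrary linear maps `P_j` and functions `ψ_j` such that
`2 ≤ D² ψ_j ≤ 2κ`; the constant is then `c κ⁻¹ k^{-5/2} (k + d)^{-1/2}`. The number of functionals has to
be bounded here, unless the conjecture is true: for the parts of ellipsoids where `d` coordinates are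
nonnegative the constant is `c (1 + d)^{-1/2}`, while an absolute constant for these bodies with
`d = d(n) → ∞`, however slowly, would imply the conjecture for all convex bodies.

Method (`F_j = q_j`, `G(s, x) = 1_D(s, L x)`, `N(t) = ∫ G(F(x) + t, x) dx`), here for `κ = 1`.
1. By Prekopa's theorem `log N` is concave, so `N(t) ≤ N(0) exp(-⟨λ, t⟩)` for some `λ ≥ 0` (`NC2`). Let
   `W(s, x) = sup_{r ≥ 0} G(s + r, x) exp(⟨λ, r⟩ / (2k)) ≥ G(s, x)`. Then `w(x) = W(F(x), x)` is strongly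
   log-concave with respect to the form `Σ λ_j q_j / k`, while `∫ w ≤ 5 N(0)` (`NC3`, `NC4`). By the
   Brascamp-Lieb inequality `Var f ≤ C sup ‖∇f‖²` in the dual norm of `Σ λ_j q_j / k`.
2. In isotropic position this form is at most `8 |·|²` (linear `f`). Let `E` be the subspace spanned by the
   linear parts of the `q_j` and by the `a_i`, `dim E ≤ k + d`. If `v` is orthogonal to `E` and
   `Σ λ_j q_j(v) ≤ c / k⁴` (quadratic parts), then `F_j(x ± v) - F_j(x)` has small second moment by step 1,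
   so that most of the measure, translated by `±v`, is dominated by the density with the levels shifted by
   `-1 / (4 k λ_j)`, of mass at most `1.29 N(0)`; as the two translates must intersect `|v| ≤ 2`. So the
   form is at least `c k⁻⁵ |·|²` on the orthogonal complement of `E` (`NC5`).
3. The form plus `|p_E x|² / (C (k + d))` is therefore at least `c k⁻⁵ (k + d)⁻¹ |·|²`; the additional
   Gaussian factor changes the density by a constant factor outside a set of measure `1 / 1920`. This is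
   enough by a form of E. Milman's theorem in which only one level of Lipschitz functions is used
   (`NC1`, `NC6`). Then affine changes of coordinates (`NC7`), truncations and limits (`NC8`, `NC9`).
4. The functions `ψ_j(P_j x) + ⟪b_j, x⟫` are treated in the same way (`ND1`-`ND5`): `E` is spanned by the
   means of the gradients of the `F_j` with respect to the uniform measure and by the `a_i`.
5. Gaussian measures on the orthants of `ℝᵐ` (which suffice for all bodies, `Univ`) are limits of the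
   marginals of the uniform measures on the parts of ellipsoids in `ℝⁿ`, `n → ∞`, where the first
   `d(n) ≥ m` coordinates are nonnegative (`ND8`).
-/

set_option autoImplicit false

namespace Pool.Agent.Results.MP_8d00da_gt.FewQuadrics

open MeasureTheory Set
open scoped ENNReal InnerProductSpace

/-- Euclidean space of dimension `n` -/
abbrev Euc (n : ℕ) : Type := EuclideanSpace ℝ (Fin n)

/-- convex body: compact convex set with nonempty interior -/
structure IsBody {n : ℕ} (K : Set (Euc n)) : Prop where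
  convex : Convex ℝ K
  compact : IsCompact K
  int : (interior K).Nonempty

/-- **Q1 for the body `K` with the constant `c`** (as in the frozen statement): for the uniform
measure `μ` on `K` and `t ∈ [0, ∞]`, if `t min(μ H, 1 - μ H) ≤ μ⁺(H)` for all halfspaces `H` then
`c t min(μ A, 1 - μ A) ≤ μ⁺(A)` for all measurable sets `A`. -/
def KLS {n : ℕ} (c : ℝ) (K : Set (Euc n)) : Prop :=
  ∀ μ : Measure (Euc n), μ = (volume K)⁻¹ • volume.restrict K → ∀ t : ℝ≥0∞,
    (∀ (u : Euc n) (b : ℝ), u ≠ 0 →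
      t * min (μ {x : Euc n | inner ℝ u x ≤ b}) (1 - μ {x : Euc n | inner ℝ u x ≤ b}) ≤
        Filter.liminf (fun ε : ℝ => (μ (Metric.thickening ε {x : Euc n | inner ℝ u x ≤ b})
          - μ {x : Euc n | inner ℝ u x ≤ b}) / ENNReal.ofReal ε) (nhdsWithin 0 (Set.Ioi 0))) →
    ∀ A : Set (Euc n), MeasurableSet A →
      ENNReal.ofReal c * t * min (μ A) (1 - μ A) ≤
        Filter.liminf (fun ε : ℝ => (μ (Metric.thickening ε A) - μ A) / ENNReal.ofReal ε)
          (nhdsWithin 0 (Set.Ioi 0))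

/-- the polynomial `q(x) = xᵀ Q x + ⟪b, x⟫ + r` -/
noncomputable def quad {n : ℕ} (Q : Matrix (Fin n) (Fin n) ℝ) (b : Euc n) (r : ℝ) (x : Euc n) : ℝ :=
  ∑ i, ∑ j, Q i j * x i * x j + inner ℝ b x + r

/-- `ψ` is `C¹`, `ψ - ‖·‖²` is convex and `∇ψ` is `2κ`-Lipschitz (for `C²` functions:
`2 ≤ D² ψ ≤ 2κ`) -/
structure UCS {m : ℕ} (κ : ℝ) (ψ : Euc m → ℝ) : Prop where
  diff : ContDiff ℝ 1 ψ
  convex : ConvexOn ℝ univ fun y => ψ y - ‖y‖ ^ 2
  lipschitz : ∀ y z, ‖fderiv ℝ ψ y - fderiv ℝ ψ z‖ ≤ 2 * κ * ‖y - z‖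

/-- `D ⊆ ℝᵏ × ℝᵈ` is closed, convex, and lower in the first `k` coordinates -/
structure IsLower {k d : ℕ} (D : Set ((Fin k → ℝ) × (Fin d → ℝ))) : Prop where
  closed : IsClosed D
  convex : Convex ℝ D
  lower : ∀ (s t : Fin k → ℝ) (z : Fin d → ℝ), (s, z) ∈ D → (∀ j, t j ≤ s j) → (t, z) ∈ D

/-- the part of the ellipsoid `xᵀ Q x ≤ 1` where the first `d` coordinates are nonnegative -/
def EllipsoidPart {n : ℕ} (d : ℕ) (Q : Matrix (Fin n) (Fin n) ℝ) : Set (Euc n) :=
  {x | (∀ i : Fin n, (i : ℕ) < d → 0 ≤ x i) ∧ ∑ i, ∑ j, Q i j * x i * x j ≤ 1}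

theorem kls_iff {n : ℕ} {c : ℝ} {K : Set (Euc n)} : KLS c K ↔ Pool.Agent.H776.HF K c :=
  ⟨fun h t ht A hA => h _ rfl t ht A hA, fun h μ hμ t ht A hA => by
    subst hμ
    exact h t ht A hA⟩

/-- multiples of densities -/
theorem nm_mul {n : ℕ} {f : Euc n → ℝ} {c : ℝ} (hc : 0 < c) :
    Pool.Agent.H776.nm (fun x => c * f x) = Pool.Agent.H776.nm f := by
  unfold Pool.Agent.H776.nm
  rw [integral_const_mul]
  congr 1
  funext x
  congr 1
  exact mul_div_mul_left _ _ hc.ne'

/-- the general form -/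
theorem main : ∃ c : ℝ, 0 < c ∧ ∀ (n k d : ℕ) (m : Fin k → ℕ) (P : ∀ j, Euc n →L[ℝ] Euc (m j))
    (ψ : ∀ j, Euc (m j) → ℝ) (b : Fin k → Euc n) (a : Fin d → Euc n) (κ : ℝ)
    (D : Set ((Fin k → ℝ) × (Fin d → ℝ))), 1 ≤ κ → (∀ j, UCS κ (ψ j)) →
    IsLower D → ∀ K : Set (Euc n),
    K = {x | ((fun j => ψ j (P j x) + inner ℝ (b j) x), fun i => inner ℝ (a i) x) ∈ D} →
    Bornology.IsBounded K → (interior K).Nonempty →
    IsBody K ∧ KLS (c / (κ * (k : ℝ) ^ (5 / 2 : ℝ) * Real.sqrt (k + d))) K := by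
  obtain ⟨C, hC, H⟩ := Pool.Agent.H776.ND.kp_main'
  refine ⟨1 / (40 * Real.sqrt C), by positivity, ?_⟩
  intro n k d m P ψ b a κ D hκ hψ hD K hKd hKb hKi
  have hκ0 : 0 < κ := by linarith
  have hprf : ∀ j, Pool.Agent.H776.ND.Prf (ψ j) κ := fun j =>
    ⟨(hψ j).diff, (hψ j).convex, (hψ j).lipschitz⟩
  choose P' hP' using fun j => Pool.Agent.H776.ND.exists_same (P j)
  have hcf := Pool.Agent.H776.ND.cf_of_prf (β := b) hκ hprf hP'
  obtain ⟨F, hF⟩ : ∃ F : Fin k → Euc n → ℝ, F = fun j x => ψ j (P j x) + inner ℝ (b j) x :=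
    ⟨_, rfl⟩
  rw [← hF] at hcf
  -- the linear functionals
  let L₀ : Euc n →ₗ[ℝ] Euc d :=
    { toFun := fun x => WithLp.toLp 2 fun i => inner ℝ (a i) x
      map_add' := fun x y => by
        ext i
        simp [inner_add_right]
      map_smul' := fun c x => by
        ext i
        simp [real_inner_smul_right] }
  obtain ⟨L, hL⟩ : ∃ L : Euc n →L[ℝ] Euc d, L = L₀.toContinuousLinearMap := ⟨_, rfl⟩
  have hLx : ∀ x i, L x i = inner ℝ (a i) x := fun x i => by
    rw [hL]
    rfl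
  -- the body
  have hmem : ∀ x, x ∈ K ↔ ((fun l => F l x), (fun i => L x i)) ∈ D := by
    intro x
    rw [hKd, mem_ofPred_eq]
    simp only [hF, hLx]
  have hcont : Continuous fun x : Euc n =>
      (((fun l => F l x), (fun i => L x i)) :
        (Fin k → ℝ) × (Fin d → ℝ)) := by
    refine Continuous.prodMk (continuous_pi fun l => (hcf.diff l).continuous) ?_
    refine continuous_pi fun i => ?_
    simp only [hLx]
    fun_prop
  have hclosed : IsClosed K := by
    have e : K = (fun x : Euc n => (((fun l => F l x),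
        (fun i => L x i)) : (Fin k → ℝ) × (Fin d → ℝ))) ⁻¹' D := by
      ext x
      exact hmem x
    rw [e]
    exact hD.closed.preimage hcont
  have hconv : Convex ℝ K := by
    intro x hx y hy s t hs ht hst
    rw [hmem] at hx hy ⊢
    refine hD.lower _ _ _ ?_ fun l =>
      (hcf.conv l).2 (mem_univ x) (mem_univ y) hs ht hst
    have h1 := hD.convex hx hy hs ht hst
    have e : (fun i => L (s • x + t • y) i) = s • (fun i => L x i) + t • fun i => L y i := by
      funext i
      rw [map_add, map_smul, map_smul]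
      rfl
    rw [e]
    exact h1
  have hbody : IsBody K := ⟨hconv, Metric.isCompact_of_isClosed_isBounded hclosed hKb, hKi⟩
  have hB : Pool.Agent.H776.Body K := ⟨hbody.compact, hbody.convex, hbody.int⟩
  refine ⟨hbody, ?_⟩
  rw [kls_iff]
  rcases Nat.eq_zero_or_pos k with h0 | hk
  · intro t _ S _
    have e : (k : ℝ) ^ (5 / 2 : ℝ) = 0 := by
      rw [h0, Nat.cast_zero, Real.zero_rpow (by norm_num)]
    rw [e, mul_zero, zero_mul, div_zero, ENNReal.ofReal_zero, zero_mul, zero_mul]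
    exact bot_le
  have hk0 : (0 : ℝ) < k := Nat.cast_pos.2 hk
  -- the density
  have hv0 : 0 < volume.real K := ENNReal.toReal_pos hB.pos.ne' hB.fin
  obtain ⟨v, hv⟩ : ∃ v : ℝ, v = (volume.real K)⁻¹ := ⟨_, rfl⟩
  have hvp : 0 < v := by rw [hv]; positivity
  obtain ⟨D', hD'⟩ : ∃ D' : Set ((Fin k → ℝ) × Euc d), D' = {p | (p.1, fun i => p.2 i) ∈ D} :=
    ⟨_, rfl⟩
  have hD'c : IsClosed D' := by
    rw [hD']
    refine hD.closed.preimage ?_
    exact continuous_fst.prodMk (continuous_pi fun i => by fun_prop)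
  classical
  obtain ⟨g, hg⟩ : ∃ g : (Fin k → ℝ) → Euc d → ℝ,
    g = fun s z => D'.indicator (fun _ => v) (s, z) := ⟨_, rfl⟩
  have hg1 : ∀ s z, (s, z) ∈ D' → g s z = v := fun s z h => by
    rw [hg]
    exact indicator_of_mem h _
  have hg0 : ∀ s z, (s, z) ∉ D' → g s z = 0 := fun s z h => by
    rw [hg]
    exact indicator_of_notMem h _
  have hgn : ∀ s z, 0 ≤ g s z := fun s z => by
    by_cases h : (s, z) ∈ D'
    · rw [hg1 s z h]
      exact hvp.le
    · rw [hg0 s z h]
  have hgen : Pool.Agent.H776.NC.Gen g := by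
    refine ⟨?_, hgn, fun s t z hst => ?_, fun s t z w x y hx hy hxy => ?_⟩
    · rw [hg]
      exact measurable_const.indicator hD'c.measurableSet
    · by_cases h : (t, z) ∈ D'
      · have h' : (s, z) ∈ D' := by
          rw [hD'] at h ⊢
          exact hD.lower _ _ _ h hst
        rw [hg1 _ _ h, hg1 _ _ h']
      · rw [hg0 _ _ h]
        exact hgn _ _
    · by_cases h : (s, z) ∈ D'
      · by_cases h' : (t, w) ∈ D'
        · have h2 : (x • s + y • t, x • z + y • w) ∈ D' := by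
            rw [hD'] at h h' ⊢
            exact hD.convex h h' hx.le hy.le hxy
          rw [hg1 _ _ h, hg1 _ _ h', hg1 _ _ h2, ← Real.rpow_add hvp, hxy, Real.rpow_one]
        · rw [hg0 _ _ h', Real.zero_rpow hy.ne', mul_zero]
          exact hgn _ _
      · rw [hg0 _ _ h, Real.zero_rpow hx.ne', zero_mul]
        exact hgn _ _
  have husc : UpperSemicontinuous fun p : (Fin k → ℝ) × Euc d => g p.1 p.2 := by
    have e : (fun p : (Fin k → ℝ) × Euc d => g p.1 p.2) = D'.indicator fun _ => v := by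
      rw [hg]
    rw [e]
    exact hD'c.upperSemicontinuous_indicator hvp.le
  have hρ : (fun x : Euc n => g (fun j => F j x) (L x)) =
      fun x => v * K.indicator (fun _ => (1 : ℝ)) x := by
    funext x
    by_cases hx : x ∈ K
    · have h1 : ((fun j => F j x), L x) ∈ D' := by
        rw [hD']
        exact (hmem x).1 hx
      rw [hg1 _ _ h1, indicator_of_mem hx, mul_one]
    · have h1 : ((fun j => F j x), L x) ∉ D' := by
        rw [hD']
        exact fun h => hx ((hmem x).2 h)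
      rw [hg0 _ _ h1, indicator_of_notMem hx, mul_zero]
  have hden : Q289.LD.Den fun x : Euc n =>
      g (fun j => F j x) (L x) := by
    rw [hρ]
    have h1 := hB.den
    have e : (fun x => K.indicator (fun _ => (1 : ℝ)) x / volume.real K) =
        fun x => v * K.indicator (fun _ => (1 : ℝ)) x := by
      funext x
      rw [hv, div_eq_inv_mul]
    rwa [e] at h1
  have h1 := H n k d F P' κ L g hcf hgen hk hden (Or.inl husc)
  rw [hρ, nm_mul hvp] at h1
  have h2 := Pool.Agent.H776.hf_of_kp hB (D := C * κ ^ 2 * k ^ 5 * ((k + d : ℕ) : ℝ)) (by positivity) h1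
  have e : 1 / (40 * Real.sqrt (C * κ ^ 2 * k ^ 5 * ((k + d : ℕ) : ℝ))) =
      1 / (40 * Real.sqrt C) / (κ * (k : ℝ) ^ (5 / 2 : ℝ) * Real.sqrt (k + d)) := by
    have h3 : Real.sqrt ((k : ℝ) ^ 5) = (k : ℝ) ^ (5 / 2 : ℝ) := by
      rw [Real.sqrt_eq_rpow, ← Real.rpow_natCast, ← Real.rpow_mul hk0.le]
      norm_num
    rw [Real.sqrt_mul (by positivity), Real.sqrt_mul (by positivity), Real.sqrt_mul hC.le,
      Real.sqrt_sq hκ0.le, h3, Nat.cast_add, div_div]
    congr 1
    ring
  rwa [e] at h2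

/-- constants -/
theorem KLS.mono {n : ℕ} {C C' : ℝ} (h : C' ≤ C) {K : Set (Euc n)} (hK : KLS C K) : KLS C' K := by
  intro μ hμ t ht A hA
  refine le_trans ?_ (hK μ hμ t ht A hA)
  gcongr

theorem jo_eq {n d : ℕ} {F : Type} [Fintype F] {A : Euc n →ₗ[ℝ] EuclideanSpace ℝ F}
    {Q : Matrix (Fin n) (Fin n) ℝ} (h : ∀ x : Euc n, ‖A x‖ ^ 2 = ∑ i, ∑ j, Q i j * x i * x j) :
    Pool.Agent.H776.JO (fun i : Fin n => (i : ℕ) < d) A = EllipsoidPart d Q := by
  ext x
  unfold Pool.Agent.H776.JO EllipsoidPart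
  rw [mem_ofPred_eq, mem_ofPred_eq, h]

/-- **(1)** if `q_l(x) = xᵀ Q_l x + ⟪b_l, x⟫ + r_l` with positive semidefinite `Q_l` (`l ≤ k`),
`a_1, …, a_d ∈ ℝⁿ`, `D ⊆ ℝᵏ × ℝᵈ` is closed, convex and lower in the first `k` coordinates, and
`K = {x : (q_1(x), …, q_k(x), ⟪a_1, x⟫, …, ⟪a_d, x⟫) ∈ D}` is bounded with nonempty interior, then `K` is
a convex body and Q1 (in the form of the frozen statement) holds for `K` with the constant
`c k^{-5/2} (k + d)^{-1/2}` -/
def QuadricsKLS (c : ℝ) : Prop :=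
  ∀ (n k d : ℕ) (Q : Fin k → Matrix (Fin n) (Fin n) ℝ)
    (b : Fin k → Euc n) (r : Fin k → ℝ) (a : Fin d → Euc n)
    (D : Set ((Fin k → ℝ) × (Fin d → ℝ))),
    (∀ l, (Q l).PosSemidef) → IsLower D → ∀ K : Set (Euc n),
    K = {x | ((fun l => quad (Q l) (b l) (r l) x), fun i => inner ℝ (a i) x) ∈ D} →
    Bornology.IsBounded K → (interior K).Nonempty →
    IsBody K ∧ KLS (c / ((k : ℝ) ^ (5 / 2 : ℝ) * Real.sqrt (k + d))) K

/-- **(2)** the same with the constant `c κ⁻¹ k^{-5/2} (k + d)^{-1/2}` for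
`K = {x : (F_1(x), …, F_k(x), ⟪a_1, x⟫, …, ⟪a_d, x⟫) ∈ D}`, `F_j(x) = ψ_j(P_j x) + ⟪b_j, x⟫`, with
arbitrary linear maps `P_j` and vectors `b_j`, if `ψ_j - ‖·‖²` is convex and `∇ψ_j` is
`2κ`-Lipschitz -/
def ConvexKLS (c : ℝ) : Prop :=
  ∀ (n k d : ℕ) (m : Fin k → ℕ) (P : ∀ j, Euc n →L[ℝ] Euc (m j))
    (ψ : ∀ j, Euc (m j) → ℝ) (b : Fin k → Euc n) (a : Fin d → Euc n) (κ : ℝ)
    (D : Set ((Fin k → ℝ) × (Fin d → ℝ))), 1 ≤ κ → (∀ j, UCS κ (ψ j)) →
    IsLower D → ∀ K : Set (Euc n),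
    K = {x | ((fun j => ψ j (P j x) + inner ℝ (b j) x), fun i => inner ℝ (a i) x) ∈ D} →
    Bornology.IsBounded K → (interior K).Nonempty →
    IsBody K ∧ KLS (c / (κ * (k : ℝ) ^ (5 / 2 : ℝ) * Real.sqrt (k + d))) K

/-- **(3)** the parts of ellipsoids in `ℝⁿ` where the first `d` coordinates are nonnegative satisfy Q1
with the constant `c (1 + d)^{-1/2}`, by (1); but for every sequence `d(n) → ∞`, however slowly it grows,
Q1 with a constant `C` for all these bodies with `d = d(n)` would imply Q1 with `c C` for all convex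
bodies -/
def PartsDichotomy (c : ℝ) : Prop :=
  (∀ (n d : ℕ) (Q : Matrix (Fin n) (Fin n) ℝ), Q.PosDef →
    IsBody (EllipsoidPart d Q) ∧ KLS (c / Real.sqrt (1 + d)) (EllipsoidPart d Q)) ∧
  ∀ d : ℕ → ℕ, Filter.Tendsto d Filter.atTop Filter.atTop → ∀ C : ℝ, 0 < C →
    (∀ (n : ℕ) (Q : Matrix (Fin n) (Fin n) ℝ), Q.PosDef → KLS C (EllipsoidPart (d n) Q)) →
    ∀ (n : ℕ) (K : Set (Euc n)), IsBody K → KLS (c * C) K

/-- **few conditions** -/
theorem few {c : ℝ} (H : ConvexKLS c) (n d : ℕ) (Q : Matrix (Fin n) (Fin n) ℝ) (hQ : Q.PosDef) :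
    IsBody (EllipsoidPart d Q) ∧ KLS (c / Real.sqrt (1 + d)) (EllipsoidPart d Q) := by
  obtain ⟨A, hA, hx⟩ := Pool.Agent.H776.exists_map hQ
  have hsq : Pool.Agent.H776.FE.Prof (fun y : Euc n => ‖y‖ ^ 2) 1 :=
    Pool.Agent.H776.FE.prof_sq (W := Euc n)
  obtain ⟨a, ha⟩ : ∃ a : Fin d → Euc n, a = fun i : Fin d => if h : (i : ℕ) < n then
    EuclideanSpace.single (⟨i, h⟩ : Fin n) (1 : ℝ) else 0 := ⟨_, rfl⟩
  have hax : ∀ x : Euc n, (∀ i : Fin d, 0 ≤ inner ℝ (a i) x) ↔
      ∀ i : Fin n, (i : ℕ) < d → 0 ≤ x i := by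
    intro x
    constructor
    · intro h i hi
      have h1 := h ⟨i, hi⟩
      rw [ha] at h1
      simp only [Fin.is_lt, dif_pos, Fin.eta, EuclideanSpace.inner_single_left, map_one,
        one_mul] at h1
      exact h1
    · intro h i
      by_cases hi : (i : ℕ) < n
      · have h1 := h ⟨i, hi⟩ i.2
        rw [ha]
        simp only [dif_pos hi, EuclideanSpace.inner_single_left, map_one, one_mul]
        exact h1
      · rw [ha]
        simp only [dif_neg hi, inner_zero_left, le_refl]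
  obtain ⟨D, hD⟩ : ∃ D : Set ((Fin 1 → ℝ) × (Fin d → ℝ)),
    D = {p | p.1 0 ≤ 1 ∧ ∀ i, 0 ≤ p.2 i} := ⟨_, rfl⟩
  have hlow : IsLower D := by
    rw [hD]
    refine ⟨?_, ?_, ?_⟩
    · have h1 : IsClosed {p : (Fin 1 → ℝ) × (Fin d → ℝ) | ∀ i, 0 ≤ p.2 i} := by
        rw [ofPred_forall]
        exact isClosed_iInter fun i => isClosed_le continuous_const (by fun_prop)
      have h2 : IsClosed {p : (Fin 1 → ℝ) × (Fin d → ℝ) | p.1 0 ≤ 1} :=
        isClosed_le (by fun_prop) continuous_const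
      exact h2.inter h1
    · intro p hp q hq s t hs ht hst
      refine ⟨?_, fun i => ?_⟩
      · have h1 := hp.1
        have h2 := hq.1
        simp only [Prod.fst_add, Prod.smul_fst, Pi.add_apply, Pi.smul_apply, smul_eq_mul]
        nlinarith
      · simp only [Prod.snd_add, Prod.smul_snd, Pi.add_apply, Pi.smul_apply, smul_eq_mul]
        exact add_nonneg (mul_nonneg hs (hp.2 i)) (mul_nonneg ht (hq.2 i))
    · intro s t z hs hst
      exact ⟨(hst 0).trans hs.1, hs.2⟩
  have hK : EllipsoidPart d Q = {x : Euc n |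
      ((fun _ : Fin 1 => ‖A.toContinuousLinearMap x‖ ^ 2 + inner ℝ (0 : Euc n) x),
        fun i => inner ℝ (a i) x) ∈ D} := by
    ext x
    rw [hD]
    simp only [EllipsoidPart, mem_ofPred_eq, LinearMap.coe_toContinuousLinearMap', hx,
      inner_zero_left, add_zero, hax]
    exact and_comm
  have hc : IsCompact (EllipsoidPart d Q) := by
    rw [← jo_eq hx]
    exact Pool.Agent.H776.JO_compact hA
  have hi : (interior (EllipsoidPart d Q)).Nonempty := by
    rw [← jo_eq hx]
    exact Pool.Agent.H776.JO_interior A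
  have h1 := H n 1 d (fun _ => n) (fun _ => A.toContinuousLinearMap)
    (fun _ (y : Euc n) => ‖y‖ ^ 2) (fun _ => 0) a 1 D le_rfl
    (fun _ => ⟨hsq.diff, hsq.conv, hsq.lip⟩) hlow _ hK hc.isBounded hi
  rwa [Nat.cast_one, Real.one_rpow, one_mul, one_mul] at h1

/-- **many conditions** -/
theorem many : ∃ c : ℝ, 0 < c ∧ ∀ d : ℕ → ℕ, Filter.Tendsto d Filter.atTop Filter.atTop →
    ∀ C : ℝ, 0 < C →
    (∀ (n : ℕ) (Q : Matrix (Fin n) (Fin n) ℝ), Q.PosDef → KLS C (EllipsoidPart (d n) Q)) →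
    ∀ (n : ℕ) (K : Set (Euc n)), IsBody K → KLS (c * C) K := by
  obtain ⟨c₀, hc₀, H0⟩ := Pool.Agent.H776.exists_kp_of_hf
  refine ⟨c₀ / 80, by positivity, fun d hd C hC H n K hK => ?_⟩
  have hD : 0 < 4 / (C * c₀) ^ 2 := by positivity
  have hJO : ∀ (n : ℕ) (F' : Type) [Fintype F']
      (A : Pool.Agent.H776.Eu (Fin n) →ₗ[ℝ] Pool.Agent.H776.Eu F'), Function.Injective A →
      Pool.Agent.H776.KP (Pool.Agent.H776.nm (Pool.Agent.H776.jo
        (fun i : Fin n => (i : ℕ) < d n) A)) (4 / (C * c₀) ^ 2) := by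
    intro n F' _ A hA
    have hbody : Pool.Agent.H776.Body
        (Pool.Agent.H776.JO (fun i : Fin n => (i : ℕ) < d n) A) :=
      ⟨Pool.Agent.H776.JO_compact hA, Pool.Agent.H776.JO_convex A,
        Pool.Agent.H776.JO_interior A⟩
    obtain ⟨Q, hQ, -, hQx⟩ := Pool.Agent.H776.exists_matrix A hA
    have h1 := kls_iff.1 (H _ Q hQ)
    rw [← jo_eq hQx] at h1
    exact H0 _ _ hbody C hC h1
  have hB : Pool.Agent.H776.Body K := ⟨hK.compact, hK.convex, hK.int⟩
  have hall := Pool.Agent.H776.kp_parts hD.le hd hJO hB.den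
  have hK' : Pool.Agent.H776.KP (Pool.Agent.H776.nm (K.indicator fun _ => (1 : ℝ)))
      (4 / (C * c₀) ^ 2) := by
    have e : (fun x => K.indicator (fun _ => (1 : ℝ)) x / volume.real K) =
        fun x => (volume.real K)⁻¹ * K.indicator (fun _ => (1 : ℝ)) x := by
      funext x
      rw [div_eq_inv_mul]
    have hr : 0 < volume.real K := ENNReal.toReal_pos hB.pos.ne' hB.fin
    rw [e, Pool.Agent.H776.nm_const_mul (inv_ne_zero hr.ne')] at hall
    exact hall
  have h5 := Pool.Agent.H776.hf_of_kp hB hD hK'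
  have e : 1 / (40 * Real.sqrt (4 / (C * c₀) ^ 2)) = c₀ / 80 * C := by
    rw [Real.sqrt_div (by norm_num), Real.sqrt_sq (by positivity),
      show (4 : ℝ) = 2 ^ 2 by norm_num, Real.sqrt_sq (by norm_num)]
    field_simp
    norm_num
  rw [e] at h5
  exact kls_iff.2 h5

/-- **KLS for convex bodies defined by `k` convex quadratic polynomials and `d` linear functionals.**
There is an absolute constant `c > 0` such that (1), (2) and (3) above hold, for all `n`, `k`, `d`. -/
theorem result : ∃ c : ℝ, 0 < c ∧ QuadricsKLS c ∧ ConvexKLS c ∧ PartsDichotomy c := by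
  obtain ⟨c₁, hc₁, H₁⟩ := main
  obtain ⟨c₂, hc₂, H₂⟩ := many
  obtain ⟨c, hcd⟩ : ∃ c : ℝ, c = min c₁ c₂ := ⟨_, rfl⟩
  have hc : 0 < c := by rw [hcd]; exact lt_min hc₁ hc₂
  have hcl₁ : c ≤ c₁ := by rw [hcd]; exact min_le_left _ _
  have hcl₂ : c ≤ c₂ := by rw [hcd]; exact min_le_right _ _
  have H : ConvexKLS c := fun n k d m P ψ b a κ D hκ hψ hD K hKd hKb hKi => by
    obtain ⟨h1, h2⟩ := H₁ n k d m P ψ b a κ D hκ hψ hD K hKd hKb hKi
    exact ⟨h1, h2.mono (by gcongr)⟩
  refine ⟨c, hc, ?_, H, few H, fun d hd C hC h n K hK => (H₂ d hd C hC h n K hK).mono (by gcongr)⟩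
  intro n k d Q b r a D hQ hD K hKd hKb hKi
  choose A hA using fun j => Pool.Agent.H776.FE.exists_map_psd (hQ j)
  have hψ : ∀ j : Fin k, UCS 1 fun y : Euc n => ‖y‖ ^ 2 + r j := fun j => by
    have h2 := Pool.Agent.H776.FE.prof_sq (W := Euc n)
    have e : ∀ y : Euc n, fderiv ℝ (fun y : Euc n => ‖y‖ ^ 2 + r j) y =
        fderiv ℝ (fun y : Euc n => ‖y‖ ^ 2) y := fun y => fderiv_add_const _
    refine ⟨h2.diff.add contDiff_const, ?_, fun y z => ?_⟩
    · simp only [add_sub_cancel_left]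
      exact convexOn_const _ convex_univ
    · rw [e, e]
      exact h2.lip y z
  have hq : ∀ l x, quad (Q l) (b l) (r l) x =
      ‖(A l).toContinuousLinearMap x‖ ^ 2 + r l + inner ℝ (b l) x := by
    intro l x
    unfold quad
    rw [LinearMap.coe_toContinuousLinearMap', hA]
    ring
  simp only [hq] at hKd
  have h1 := H n k d (fun _ => n) (fun j => (A j).toContinuousLinearMap)
    (fun j y => ‖y‖ ^ 2 + r j) b a 1 D le_rfl hψ hD K hKd hKb hKi
  rwa [one_mul] at h1

end Pool.Agent.Results.MP_8d00da_gt.FewQuadrics
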