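import Pool.Agent.H776.HNet6

/-!
# The KLS conjecture for convex bodies is equivalent to its case of linear relaxations of Horn formulas
with at most three literals per clause

For a set `Φ` of clauses in the variables `x_1, ..., x_n`, each of one of the forms
  `x_i → x_j`,   `¬ (x_i ∧ x_j)`,   `x_i ∧ x_j → x_k`   with distinct variables,
let `P(Φ) = {x ∈ [0,1]ⁿ | x_i ≤ x_j, x_i + x_j ≤ 1, x_i + x_j ≤ 1 + x_k for the clauses in Φ}` be the linear
relaxation. Q1 (the frozen statement) holds for all convex bodies if and only if it holds for the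
polytopes `P(Φ)` (with nonempty interior). So the conjecture is about a countable family of polytopes,
given by polynomially many inequalities with at most three nonzero coefficients, all equal to
`1` or `-1`.

Contrast: for formulas with two literals per clause (`x_i → x_j`, `¬(x_i ∧ x_j)`, `x_i ∨ x_j`) the
conjecture is a theorem of the library (`TwoSatPolytopes` for this problem: order polytopes, fractional
stable set polytopes of graphs, ...). With three literals, even only Horn clauses, all convex
bodies are present (in the limit).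

Method.
1. Amplification (`Amp`, ..., `Amp4`). If the inequality holds for the bodies which are obtained from
  `K ⊆ [0,1]^σ` by adding a coordinate `f`, `M²` copies `η ≤ f` and for each `i` in a subset of the
  coordinates `M` copies `w` with `w ≤ s_i`, `s_i + f ≤ 1 + w`, then it holds for the marginal of the
  uniform measure on `K` on these coordinates: the copies `η` push `f` to `1 - O(1/M)`, so `w = s_i + O(1/M)`
  and the normalised sum `M^{-1/2} ∑ w` dominates all other directions as `M → ∞`.
2. Weights (`Horn`). Copies `u ≤ s_i` and `u ≤ 1 - s_i` give marginals of products of powers of literals.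
3. Networks (`HNet`, ...). High powers of literals at different scales give in the limit Gaussian
  measures on orthants; two clauses `a ∧ b → z`, `c ∧ d → z` and high powers of `1 - z` force
  `a + b = c + d` up to errors of a smaller scale. With such equations the quadratic form can be
  `|y|² + ∑ ⟨m_i, y⟩²` with arbitrary integral vectors `m_i`; by dilations and limits all positive
  definite quadratic forms are obtained.
4. Gaussian measures on orthants are enough for all log-concave measures (as in `EllipsoidsInOrthants`).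
-/

set_option autoImplicit false

namespace Pool.Agent.Results.MP_8d00da_gt.HornPolytopes

open MeasureTheory Set
open scoped ENNReal InnerProductSpace

/-- Euclidean space of dimension `n` -/
abbrev Euc (n : ℕ) : Type := EuclideanSpace ℝ (Fin n)

/-- convex body: compact convex set with nonempty interior -/
structure IsBody {n : ℕ} (K : Set (Euc n)) : Prop where
  convex : Convex ℝ K
  compact : IsCompact K
  int : (interior K).Nonempty

/-- **Q1 for the body `K` with the constant `c`** (as in the frozen statement): for the uniform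
measure `μ` on `K` and `t ∈ [0, ∞]`, if `t min(μ H, 1 - μ H) ≤ μ⁺(H)` for all halfspaces `H` then
`c t min(μ A, 1 - μ A) ≤ μ⁺(A)` for all measurable sets `A`. -/
def KLS {n : ℕ} (c : ℝ) (K : Set (Euc n)) : Prop :=
  ∀ μ : Measure (Euc n), μ = (volume K)⁻¹ • volume.restrict K → ∀ t : ℝ≥0∞,
    (∀ (u : Euc n) (b : ℝ), u ≠ 0 →
      t * min (μ {x : Euc n | inner ℝ u x ≤ b}) (1 - μ {x : Euc n | inner ℝ u x ≤ b}) ≤
        Filter.liminf (fun ε : ℝ => (μ (Metric.thickening ε {x : Euc n | inner ℝ u x ≤ b})
          - μ {x : Euc n | inner ℝ u x ≤ b}) / ENNReal.ofReal ε) (nhdsWithin 0 (Set.Ioi 0))) →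
    ∀ A : Set (Euc n), MeasurableSet A →
      ENNReal.ofReal c * t * min (μ A) (1 - μ A) ≤
        Filter.liminf (fun ε : ℝ => (μ (Metric.thickening ε A) - μ A) / ENNReal.ofReal ε)
          (nhdsWithin 0 (Set.Ioi 0))

/-- Horn clauses in `n` variables with two or three literals (with distinct variables) -/
inductive HornClause (n : ℕ) : Type
  /-- `x_i → x_j` -/
  | implies (i j : Fin n) (hij : i ≠ j) : HornClause n
  /-- `¬ (x_i ∧ x_j)` -/
  | excludes (i j : Fin n) (hij : i ≠ j) : HornClause n
  /-- `x_i ∧ x_j → x_k` -/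
  | both (i j k : Fin n) (hij : i ≠ j) (hik : i ≠ k) (hjk : j ≠ k) : HornClause n

/-- the linear relaxation of a clause -/
def HornClause.Relaxed {n : ℕ} (x : Euc n) : HornClause n → Prop
  | implies i j _ => x i ≤ x j
  | excludes i j _ => x i + x j ≤ 1
  | both i j k _ _ _ => x i + x j ≤ 1 + x k

/-- the linear relaxation of a formula (set of clauses) -/
def Relaxation {n : ℕ} (Φ : Set (HornClause n)) : Set (Euc n) :=
  {x | (∀ i, 0 ≤ x i ∧ x i ≤ 1) ∧ ∀ c ∈ Φ, c.Relaxed x}

theorem kls_iff {n : ℕ} {c : ℝ} {K : Set (Euc n)} : KLS c K ↔ Pool.Agent.H776.HF K c :=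
  ⟨fun h t ht A hA => h _ rfl t ht A hA, fun h μ hμ t ht A hA => by
    subst hμ
    exact h t ht A hA⟩

/-- translation of clauses -/
def toCl {n : ℕ} : HornClause n → Pool.Agent.H776.Cl (Fin n)
  | HornClause.implies i j _ => Pool.Agent.H776.Cl.imp i j
  | HornClause.excludes i j _ => Pool.Agent.H776.Cl.exc i j
  | HornClause.both i j k _ _ _ => Pool.Agent.H776.Cl.tri i j k

theorem sat_iff {n : ℕ} (c : HornClause n) (x : Euc n) : (toCl c).sat x ↔ c.Relaxed x := by
  cases c <;> rfl

theorem relaxation_eq {n : ℕ} (Φ : Set (HornClause n)) :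
    Relaxation Φ = Pool.Agent.H776.HP (toCl '' Φ) := by
  ext x
  refine and_congr_right fun _ => ⟨fun h c hc => ?_, fun h c hc => ?_⟩
  · obtain ⟨c, hc, rfl⟩ := hc
    exact (sat_iff c x).2 (h c hc)
  · exact (sat_iff c x).1 (h _ (mem_image_of_mem _ hc))

theorem hp_eq {n : ℕ} {C : Set (Pool.Agent.H776.Cl (Fin n))} (hC : ∀ c ∈ C, c.ok) :
    Pool.Agent.H776.HP C = Relaxation (toCl ⁻¹' C) := by
  have hs : C ⊆ range (toCl (n := n)) := by
    intro c hc
    have h := hC c hc
    cases c with
    | imp i j => exact ⟨HornClause.implies i j h, rfl⟩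
    | exc i j => exact ⟨HornClause.excludes i j h, rfl⟩
    | tri i j k => exact ⟨HornClause.both i j k h.1 h.2.1 h.2.2, rfl⟩
  rw [relaxation_eq, image_preimage_eq_of_subset hs]

theorem isBody_relaxation {n : ℕ} {Φ : Set (HornClause n)} (h : (interior (Relaxation Φ)).Nonempty) :
    IsBody (Relaxation Φ) := by
  rw [relaxation_eq] at h ⊢
  have hb := Pool.Agent.H776.HP_body h
  exact ⟨hb.cvx, hb.cpt, hb.int⟩

/-- **relaxations of Horn formulas are as hard as all convex bodies** -/
theorem main : ∃ c : ℝ, 0 < c ∧ ∀ C : ℝ, 0 < C →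
    (∀ (n : ℕ) (Φ : Set (HornClause n)), (interior (Relaxation Φ)).Nonempty →
      KLS C (Relaxation Φ)) →
      ∀ (n : ℕ) (K : Set (Euc n)), IsBody K → KLS (c * C) K := by
  classical
  obtain ⟨c₀, hc₀, H0⟩ := Pool.Agent.H776.exists_kp_of_hf
  refine ⟨c₀ / 80, by positivity, fun C hC H n K hK => ?_⟩
  have hD : 0 < 4 / (C * c₀) ^ 2 := by positivity
  have hHP : ∀ (σ : Type) [Fintype σ] (K : Set (Pool.Agent.H776.Eu σ)),
      Pool.Agent.H776.IsHP K → Pool.Agent.H776.CB K →
        Pool.Agent.H776.KP (Pool.Agent.H776.nm (K.indicator fun _ => (1 : ℝ)))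
          (4 / (C * c₀) ^ 2) := by
    rintro σ _ K ⟨Cc, hok, rfl⟩ hcb
    have e := Fintype.equivFin σ
    have hok' : ∀ c ∈ Pool.Agent.H776.Cl.map e '' Cc, c.ok := by
      rintro c ⟨c, hc, rfl⟩
      exact Pool.Agent.H776.Cl.ok_map e.injective (hok c hc)
    set s := Pool.Agent.H776.rx e.symm with hs
    have hiff : ∀ y, y ∈ Pool.Agent.H776.HP (Pool.Agent.H776.Cl.map e '' Cc) ↔
        s y ∈ Pool.Agent.H776.HP Cc := by
      intro y
      have hsy : ∀ i, s y i = y (e i) := fun i => by
        rw [hs, Pool.Agent.H776.rx_apply, Equiv.symm_symm]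
      constructor
      · intro h
        refine ⟨fun i => ?_, fun c hc => ?_⟩
        · rw [hsy]
          exact h.1 _
        · have h1 := h.2 _ (mem_image_of_mem _ hc)
          rw [Pool.Agent.H776.Cl.sat_map] at h1
          have e1 : (s y : σ → ℝ) = fun i => y (e i) := funext hsy
          rw [e1]
          exact h1
      · intro h
        refine ⟨fun i => ?_, fun c hc => ?_⟩
        · have h1 := h.1 (e.symm i)
          rw [hsy, Equiv.apply_symm_apply] at h1
          exact h1
        · obtain ⟨c, hc, rfl⟩ := hc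
          have h1 := h.2 _ hc
          rw [Pool.Agent.H776.Cl.sat_map]
          have e1 : (s y : σ → ℝ) = fun i => y (e i) := funext hsy
          rw [e1] at h1
          exact h1
    have hint : (interior (Pool.Agent.H776.HP (Pool.Agent.H776.Cl.map e '' Cc))).Nonempty := by
      have e2 : Pool.Agent.H776.HP (Pool.Agent.H776.Cl.map e '' Cc) =
          s ⁻¹' Pool.Agent.H776.HP Cc := by
        ext y
        exact hiff y
      rw [e2]
      have e3 : s ⁻¹' interior (Pool.Agent.H776.HP Cc) = interior (s ⁻¹' Pool.Agent.H776.HP Cc) :=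
        s.toHomeomorph.preimage_interior _
      rw [← e3]
      obtain ⟨x, hx⟩ := hcb.int
      exact ⟨s.symm x, by rwa [mem_preimage, LinearIsometryEquiv.apply_symm_apply]⟩
    have hbody := Pool.Agent.H776.HP_body hint
    rw [hp_eq hok'] at hint
    have h1 := kls_iff.1 (H _ _ hint)
    rw [← hp_eq hok'] at h1
    have h2 := H0 _ _ hbody C hC h1
    have hpr := hbody.wt.prob
    have h3 := h2.iso hbody.wt.int_sq s hD.le
    have e1 : (Pool.Agent.H776.HP (Pool.Agent.H776.Cl.map e '' Cc)).indicator
        (fun _ => (1 : ℝ)) =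
        fun y => (Pool.Agent.H776.HP Cc).indicator (fun _ => (1 : ℝ)) (s y) := by
      funext y
      by_cases hy : y ∈ Pool.Agent.H776.HP (Pool.Agent.H776.Cl.map e '' Cc)
      · rw [indicator_of_mem hy, indicator_of_mem ((hiff y).1 hy)]
      · rw [indicator_of_notMem hy, indicator_of_notMem fun h => hy ((hiff y).2 h)]
    rw [e1, Pool.Agent.H776.nm_iso] at h3
    exact h3
  have hB : Pool.Agent.H776.Body K := ⟨hK.compact, hK.convex, hK.int⟩
  have hall := Pool.Agent.H776.kp_horn hD.le hHP hB.den
  have hK' : Pool.Agent.H776.KP (Pool.Agent.H776.nm (K.indicator fun _ => (1 : ℝ)))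
      (4 / (C * c₀) ^ 2) := by
    have e : (fun x => K.indicator (fun _ => (1 : ℝ)) x / volume.real K) =
        fun x => (volume.real K)⁻¹ * K.indicator (fun _ => (1 : ℝ)) x := by
      funext x
      rw [div_eq_inv_mul]
    have hr : 0 < volume.real K := ENNReal.toReal_pos hB.pos.ne' hB.fin
    rw [e, Pool.Agent.H776.nm_const_mul (inv_ne_zero hr.ne')] at hall
    exact hall
  have h5 := Pool.Agent.H776.hf_of_kp hB hD hK'
  have e : 1 / (40 * Real.sqrt (4 / (C * c₀) ^ 2)) = c₀ / 80 * C := by
    rw [Real.sqrt_div (by norm_num), Real.sqrt_sq (by positivity),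
      show (4 : ℝ) = 2 ^ 2 by norm_num, Real.sqrt_sq (by norm_num)]
    field_simp
    norm_num
  rw [e] at h5
  exact kls_iff.2 h5

/-- **The KLS conjecture for convex bodies is equivalent to its case of linear relaxations of Horn
formulas with at most three literals per clause.** There is an absolute constant `c > 0` such that:
if Q1 holds with the constant `C` for all polytopes `{x ∈ [0,1]ⁿ | x_i ≤ x_j, x_i + x_j ≤ 1,
x_i + x_j ≤ 1 + x_k for the clauses x_i → x_j, ¬(x_i ∧ x_j), x_i ∧ x_j → x_k in Φ}` with nonempty interior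
(`Φ` a set of such clauses, each with distinct variables), then it holds with the constant `c C` for all convex bodies. So the conjecture is equivalent to the
conjecture for these polytopes. (They are convex bodies.) -/
theorem result :
    (∃ c : ℝ, 0 < c ∧ ∀ C : ℝ, 0 < C →
      (∀ (n : ℕ) (Φ : Set (HornClause n)), (interior (Relaxation Φ)).Nonempty →
        KLS C (Relaxation Φ)) →
        ∀ (n : ℕ) (K : Set (Euc n)), IsBody K → KLS (c * C) K) ∧
    ((∃ C : ℝ, 0 < C ∧ ∀ (n : ℕ) (K : Set (Euc n)), IsBody K → KLS C K) ↔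
      ∃ C : ℝ, 0 < C ∧ ∀ (n : ℕ) (Φ : Set (HornClause n)), (interior (Relaxation Φ)).Nonempty →
        KLS C (Relaxation Φ)) ∧
    ∀ (n : ℕ) (Φ : Set (HornClause n)), (interior (Relaxation Φ)).Nonempty →
      IsBody (Relaxation Φ) := by
  refine ⟨main, ⟨fun ⟨C, hC, H⟩ => ⟨C, hC, fun n Φ hΦ => H n _ (isBody_relaxation hΦ)⟩,
    fun ⟨C, hC, H⟩ => ?_⟩, fun _ _ hΦ => isBody_relaxation hΦ⟩
  obtain ⟨c, hc, h⟩ := main
  exact ⟨c * C, mul_pos hc hC, h C hC H⟩

end Pool.Agent.Results.MP_8d00da_gt.HornPolytopes
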