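import Pool.Agent.H776.ZNet3

/-!
# The KLS conjecture for convex bodies is equivalent to its case of 0/1-polytopes

A 0/1-polytope in `ℝⁿ` is the convex hull of a subset of `{0,1}ⁿ`. Q1 (the frozen statement) holds for
all convex bodies if and only if it holds for all 0/1-polytopes with nonempty interior. So the
conjecture is a statement about a countable family of polytopes, with finitely many members in each
dimension.

Method.
1. Amplification (`Amp`, ..., `Amp5`, `ZP`). Let `K = conv V` with `V ⊆ {0,1}^σ`, and let `v₁ ∈ V` with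
  `v₁ i = 1` for the visible coordinates `i`. The body which is obtained from `K` by adding a
  coordinate `f`, `M²` copies `η ≤ f` and `M` copies `w` of each visible coordinate with
  `max(0, s_i + f - 1) ≤ w ≤ s_i` is not a 0/1-polytope. But the convex hull of its 0/1 points contains the
  part over the cone `{((1-f) v₁ + f k, f) | k ∈ K}`, and this part has almost full volume for
  `M → ∞` (as the copies `η` push `f` to `1 - O(1/M)`). This is enough: the inequality for the hulls implies
  the inequality for the marginal of the uniform measure on `K` on the visible coordinates.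
2. Weights (`ZP2`). If `l` is an affine function with values 0, 1 on `V` then the body
  `{(x, u) | x ∈ K, 0 ≤ u ≤ l(x)}` is a 0/1-polytope; such copies give the marginals of measures with
  densities `∏ l_i` on `K`.
3. Networks (`ZNet`, `ZNet2`). Let `V` be the set of the 0/1 vectors with `y_k ∨ o` for the visible
  coordinates `y_k` and `b ∧ c ≤ a ≤ b ∨ c` for some triples `(a, b, c)` of coordinates. Then
  `l = b + c - a` has the values 0, 1 on `V`, and high powers of `l (1 - l)` force
  `a - 1/2 = (b - 1/2) + (c - 1/2)` up to errors of a small scale. Powers of `x (1 - x)` for the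
  coordinates give Gaussian measures with scale `n^{-2}` (visible) and `n^{-3}` (hidden); by `y_k + o ≥ 1`
  the limit of the visible coordinates is a Gaussian measure on the orthant.
4. Construction (`ZNet3`). With these equations all integral linear functions of `y` are obtained
  from the visible coordinates by additions and one subtraction. The convex hull of `V` contains a
  neighbourhood of the centre `(1/2, ..., 1/2)` relative to `{y_k + o ≥ 1}`; this is proved by pairs of
  vertices which differ in one coordinate and complements of vertices. So all quadratic forms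
  `|y|² + ∑ ⟨m_i, y⟩²` with integral vectors `m_i` are obtained; dilations and limits give all
  positive definite quadratic forms.
5. Gaussian measures on orthants are enough for all log-concave measures (as in `EllipsoidsInOrthants`).
-/

set_option autoImplicit false

namespace Pool.Agent.Results.MP_8d00da_gt.ZeroOnePolytopes

open MeasureTheory Set
open scoped ENNReal InnerProductSpace

/-- Euclidean space of dimension `n` -/
abbrev Euc (n : ℕ) : Type := EuclideanSpace ℝ (Fin n)

/-- convex body: compact convex set with nonempty interior -/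
structure IsBody {n : ℕ} (K : Set (Euc n)) : Prop where
  convex : Convex ℝ K
  compact : IsCompact K
  int : (interior K).Nonempty

/-- **Q1 for the body `K` with the constant `c`** (as in the frozen statement): for the uniform
measure `μ` on `K` and `t ∈ [0, ∞]`, if `t min(μ H, 1 - μ H) ≤ μ⁺(H)` for all halfspaces `H` then
`c t min(μ A, 1 - μ A) ≤ μ⁺(A)` for all measurable sets `A`. -/
def KLS {n : ℕ} (c : ℝ) (K : Set (Euc n)) : Prop :=
  ∀ μ : Measure (Euc n), μ = (volume K)⁻¹ • volume.restrict K → ∀ t : ℝ≥0∞,
    (∀ (u : Euc n) (b : ℝ), u ≠ 0 →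
      t * min (μ {x : Euc n | inner ℝ u x ≤ b}) (1 - μ {x : Euc n | inner ℝ u x ≤ b}) ≤
        Filter.liminf (fun ε : ℝ => (μ (Metric.thickening ε {x : Euc n | inner ℝ u x ≤ b})
          - μ {x : Euc n | inner ℝ u x ≤ b}) / ENNReal.ofReal ε) (nhdsWithin 0 (Set.Ioi 0))) →
    ∀ A : Set (Euc n), MeasurableSet A →
      ENNReal.ofReal c * t * min (μ A) (1 - μ A) ≤
        Filter.liminf (fun ε : ℝ => (μ (Metric.thickening ε A) - μ A) / ENNReal.ofReal ε)
          (nhdsWithin 0 (Set.Ioi 0))

/-- all points of `V` are 0/1 vectors -/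
def ZeroOne {n : ℕ} (V : Set (Euc n)) : Prop := ∀ x ∈ V, ∀ i, x i = 0 ∨ x i = 1

theorem kls_iff {n : ℕ} {c : ℝ} {K : Set (Euc n)} : KLS c K ↔ Pool.Agent.H776.HF K c :=
  ⟨fun h t ht A hA => h _ rfl t ht A hA, fun h μ hμ t ht A hA => by
    subst hμ
    exact h t ht A hA⟩

theorem isBody_hull {n : ℕ} {V : Set (Euc n)} (hV : ZeroOne V)
    (h : (interior (convexHull ℝ V)).Nonempty) : IsBody (convexHull ℝ V) :=
  ⟨convex_convexHull ℝ V, Pool.Agent.H776.hull_compact (σ := Fin n) hV, h⟩

/-- **0/1-polytopes are as hard as all convex bodies** -/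
theorem main : ∃ c : ℝ, 0 < c ∧ ∀ C : ℝ, 0 < C →
    (∀ (n : ℕ) (V : Set (Euc n)), ZeroOne V → (interior (convexHull ℝ V)).Nonempty →
      KLS C (convexHull ℝ V)) →
      ∀ (n : ℕ) (K : Set (Euc n)), IsBody K → KLS (c * C) K := by
  classical
  obtain ⟨c₀, hc₀, H0⟩ := Pool.Agent.H776.exists_kp_of_hf
  refine ⟨c₀ / 80, by positivity, fun C hC H n K hK => ?_⟩
  have hD : 0 < 4 / (C * c₀) ^ 2 := by positivity
  have hZP : ∀ (σ : Type) [Fintype σ] (K : Set (Pool.Agent.H776.Eu σ)),
      Pool.Agent.H776.IsZP K → (interior K).Nonempty →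
        Pool.Agent.H776.KP (Pool.Agent.H776.nm (K.indicator fun _ => (1 : ℝ)))
          (4 / (C * c₀) ^ 2) := by
    rintro σ _ K ⟨V, hV, rfl⟩ hi
    have e := Fintype.equivFin σ
    set s := Pool.Agent.H776.rx e.symm with hs
    have hsy : ∀ y i, s y i = y (e i) := fun y i => by
      rw [hs, Pool.Agent.H776.rx_apply, Equiv.symm_symm]
    have hV' : ZeroOne (s ⁻¹' V) := by
      intro x hx i
      have h1 := hV hx (e.symm i)
      rw [hsy, Equiv.apply_symm_apply] at h1
      exact h1
    have hull : s ⁻¹' convexHull ℝ V = convexHull ℝ (s ⁻¹' V) := by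
      have e1 : ∀ A : Set (Pool.Agent.H776.Eu σ), s ⁻¹' A =
          s.symm.toLinearEquiv.toLinearMap '' A := by
        intro A
        ext y
        constructor
        · intro h
          exact ⟨s y, h, s.symm_apply_apply y⟩
        · rintro ⟨x, hx, rfl⟩
          have h2 : s (s.symm x) = x := s.apply_symm_apply x
          change s (s.symm x) ∈ A
          rw [h2]
          exact hx
      rw [e1, e1, LinearMap.image_convexHull]
    have hint : (interior (convexHull ℝ (s ⁻¹' V))).Nonempty := by
      rw [← hull]
      have e3 : s ⁻¹' interior (convexHull ℝ V) = interior (s ⁻¹' convexHull ℝ V) :=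
        s.toHomeomorph.preimage_interior _
      rw [← e3]
      obtain ⟨x, hx⟩ := hi
      exact ⟨s.symm x, by rwa [mem_preimage, LinearIsometryEquiv.apply_symm_apply]⟩
    have hbody := Pool.Agent.H776.IsZP.body (σ := Fin (Fintype.card σ)) ⟨_, hV', rfl⟩ hint
    have h1 := kls_iff.1 (H _ _ hV' hint)
    have h2 := H0 _ _ hbody C hC h1
    have hpr := (Pool.Agent.H776.IsZP.body ⟨V, hV, rfl⟩ hi).wt.prob
    have hpr' := hbody.wt.prob
    have h3 := h2.iso hbody.wt.int_sq s hD.le
    have e1 : (convexHull ℝ (s ⁻¹' V)).indicator (fun _ => (1 : ℝ)) =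
        fun y => (convexHull ℝ V).indicator (fun _ => (1 : ℝ)) (s y) := by
      funext y
      rw [← hull]
      by_cases hy : s y ∈ convexHull ℝ V
      · rw [indicator_of_mem hy, indicator_of_mem (show y ∈ s ⁻¹' convexHull ℝ V from hy)]
      · rw [indicator_of_notMem hy, indicator_of_notMem
          (show y ∉ s ⁻¹' convexHull ℝ V from hy)]
    rw [e1, Pool.Agent.H776.nm_iso] at h3
    exact h3
  have hB : Pool.Agent.H776.Body K := ⟨hK.compact, hK.convex, hK.int⟩
  have hall := Pool.Agent.H776.kp_zp hD.le hZP hB.den
  have hK' : Pool.Agent.H776.KP (Pool.Agent.H776.nm (K.indicator fun _ => (1 : ℝ)))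
      (4 / (C * c₀) ^ 2) := by
    have e : (fun x => K.indicator (fun _ => (1 : ℝ)) x / volume.real K) =
        fun x => (volume.real K)⁻¹ * K.indicator (fun _ => (1 : ℝ)) x := by
      funext x
      rw [div_eq_inv_mul]
    have hr : 0 < volume.real K := ENNReal.toReal_pos hB.pos.ne' hB.fin
    rw [e, Pool.Agent.H776.nm_const_mul (inv_ne_zero hr.ne')] at hall
    exact hall
  have h5 := Pool.Agent.H776.hf_of_kp hB hD hK'
  have e : 1 / (40 * Real.sqrt (4 / (C * c₀) ^ 2)) = c₀ / 80 * C := by
    rw [Real.sqrt_div (by norm_num), Real.sqrt_sq (by positivity),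
      show (4 : ℝ) = 2 ^ 2 by norm_num, Real.sqrt_sq (by norm_num)]
    field_simp
    norm_num
  rw [e] at h5
  exact kls_iff.2 h5

/-- **The KLS conjecture for convex bodies is equivalent to its case of 0/1-polytopes.** There is an
absolute constant `c > 0` such that: if Q1 holds with the constant `C` for the convex hulls with
nonempty interior of sets of 0/1 vectors (in all dimensions), then it holds with the constant `c C`
for all convex bodies. So the conjecture is equivalent to the conjecture for the 0/1-polytopes with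
nonempty interior. (They are convex bodies.) -/
theorem result :
    (∃ c : ℝ, 0 < c ∧ ∀ C : ℝ, 0 < C →
      (∀ (n : ℕ) (V : Set (Euc n)), ZeroOne V → (interior (convexHull ℝ V)).Nonempty →
        KLS C (convexHull ℝ V)) →
        ∀ (n : ℕ) (K : Set (Euc n)), IsBody K → KLS (c * C) K) ∧
    ((∃ C : ℝ, 0 < C ∧ ∀ (n : ℕ) (K : Set (Euc n)), IsBody K → KLS C K) ↔
      ∃ C : ℝ, 0 < C ∧ ∀ (n : ℕ) (V : Set (Euc n)), ZeroOne V →
        (interior (convexHull ℝ V)).Nonempty → KLS C (convexHull ℝ V)) ∧
    ∀ (n : ℕ) (V : Set (Euc n)), ZeroOne V → (interior (convexHull ℝ V)).Nonempty →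
      IsBody (convexHull ℝ V) := by
  refine ⟨main, ⟨fun ⟨C, hC, H⟩ => ⟨C, hC, fun n V hV hi => H n _ (isBody_hull hV hi)⟩,
    fun ⟨C, hC, H⟩ => ?_⟩, fun _ _ hV hi => isBody_hull hV hi⟩
  obtain ⟨c, hc, h⟩ := main
  exact ⟨c * C, mul_pos hc hC, h C hC H⟩

end Pool.Agent.Results.MP_8d00da_gt.ZeroOnePolytopes
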